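import Pool.Agent.H211.HY.Stm1

/-!
# Integrability of the Cauchy series with three vanishing moments (unbounded poles)
-/

set_option autoImplicit false

open Topology Filter Metric Set MeasureTheory Polynomial
open scoped ENNReal

namespace Pool.Agent.H803.HY211

open Pool.Agent.H211.HY

namespace L1x

theorem summ_iff {ι : Type} (f : ι → ℂ) : ∑' j, ‖f j‖ₑ ≠ ⊤ ↔ Summable fun j => ‖f j‖ := by
  have h1 : (∑' j, ‖f j‖ₑ) = ∑' j, ((‖f j‖₊ : NNReal) : ℝ≥0∞) := rfl
  rw [h1, ENNReal.tsum_coe_ne_top_iff_summable, ← NNReal.summable_coe]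
  rfl

theorem enorm_tsum_le (f : ℕ → ℂ) : ‖∑' j, f j‖ₑ ≤ ∑' j, ‖f j‖ₑ := by
  by_cases hs : Summable fun j => ‖f j‖
  · rw [← ofReal_norm]
    calc ENNReal.ofReal ‖∑' j, f j‖ ≤ ENNReal.ofReal (∑' j, ‖f j‖) :=
          ENNReal.ofReal_le_ofReal (norm_tsum_le_tsum_norm hs)
      _ = ∑' j, ENNReal.ofReal ‖f j‖ := ENNReal.ofReal_tsum_of_nonneg (fun _ => norm_nonneg _) hs
      _ = ∑' j, ‖f j‖ₑ := by simp only [ofReal_norm]
  · have : ∑' j, ‖f j‖ₑ = ⊤ := by
      by_contra hcon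
      exact hs ((summ_iff _).mp hcon)
    rw [this]
    exact le_top

theorem kernel_zero : ∫⁻ x in ball (0 : ℂ) 1, ‖x⁻¹‖ₑ ≠ ⊤ := by
  have h : IntegrableOn (fun x : ℂ => ‖x‖⁻¹) (ball (0 : ℂ) 1) volume := by
    rw [integrableOn_fun_norm_addHaar (μ := (volume : Measure ℂ)) (f := fun y : ℝ => y⁻¹)]
    have h2 : IntegrableOn (fun _ : ℝ => (1 : ℝ)) (Ioo 0 1) := by
      simp
    refine h2.congr_fun ?_ measurableSet_Ioo
    intro y hy
    have : y ≠ 0 := hy.1.ne'
    simp [Complex.finrank_real_complex, this]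
  have h3 := h.2
  rw [hasFiniteIntegral_iff_enorm] at h3
  have h4 : ∀ x : ℂ, ‖‖x‖⁻¹‖ₑ = ‖x⁻¹‖ₑ := by
    intro x
    rw [← norm_inv, enorm_norm]
  simp only [h4] at h3
  exact h3.ne

theorem kernel_one : ∃ C : ℝ≥0∞, C ≠ ⊤ ∧ ∀ v : ℂ, ∫⁻ x in ball (0 : ℂ) 1, ‖(x - v)⁻¹‖ₑ ≤ C := by
  refine ⟨(∫⁻ x in ball (0 : ℂ) 1, ‖x⁻¹‖ₑ) + volume (ball (0 : ℂ) 1),
    ENNReal.add_ne_top.mpr ⟨kernel_zero, measure_ball_lt_top.ne⟩, fun v => ?_⟩
  set g : ℂ → ℝ≥0∞ := (ball (0 : ℂ) 1).indicator fun x => ‖x⁻¹‖ₑ with hg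
  have hpt : ∀ x : ℂ, ‖(x - v)⁻¹‖ₑ ≤ g (x - v) + 1 := by
    intro x
    by_cases hx : x - v ∈ ball (0 : ℂ) 1
    · rw [hg, indicator_of_mem hx]
      exact le_self_add
    · rw [hg, indicator_of_notMem hx, zero_add]
      have h1 : 1 ≤ ‖x - v‖ := by
        rw [mem_ball_zero_iff, not_lt] at hx
        exact hx
      have h2 : ‖(x - v)⁻¹‖ ≤ 1 := by
        rw [norm_inv]
        exact inv_le_one_of_one_le₀ h1
      rw [← ofReal_norm]
      exact ENNReal.ofReal_le_one.mpr h2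
  calc ∫⁻ x in ball (0 : ℂ) 1, ‖(x - v)⁻¹‖ₑ
      ≤ ∫⁻ x in ball (0 : ℂ) 1, (g (x - v) + 1) := lintegral_mono hpt
    _ = (∫⁻ x in ball (0 : ℂ) 1, g (x - v)) + ∫⁻ _x in ball (0 : ℂ) 1, 1 := by
        rw [lintegral_add_right _ measurable_const]
    _ ≤ (∫⁻ x, g (x - v)) + volume (ball (0 : ℂ) 1) := by
        gcongr
        · exact Measure.restrict_le_self
        · simp
    _ = (∫⁻ x, g x) + volume (ball (0 : ℂ) 1) := by
        rw [lintegral_sub_right_eq_self (fun x => g x) v]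
    _ = (∫⁻ x in ball (0 : ℂ) 1, ‖x⁻¹‖ₑ) + volume (ball (0 : ℂ) 1) := by
        rw [hg, lintegral_indicator measurableSet_ball]

/-- change of variables `x = r u + p` -/
theorem lint_scale (f : ℂ → ℝ≥0∞) (hf : Measurable f) (p : ℂ) {r : ℝ} (hr : 0 < r) :
    ∫⁻ x, f x = ENNReal.ofReal (r ^ 2) * ∫⁻ u, f (r • u + p) := by
  have h1 : ∫⁻ x, f (x + p) = ∫⁻ x, f x := lintegral_add_right_eq_self f p
  have hg : Measurable (fun x => f (x + p)) := hf.comp (measurable_add_const p)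
  have h2 := Measure.map_addHaar_smul (volume : Measure ℂ) hr.ne'
  have h3 : ∫⁻ u, f (r • u + p) = ∫⁻ x, f (x + p) ∂(Measure.map (fun u : ℂ => r • u) volume) := by
    rw [lintegral_map hg (measurable_const_smul r)]
  rw [h3]
  have h4 : Measure.map (fun u : ℂ => r • u) (volume : Measure ℂ) =
      ENNReal.ofReal |(r ^ Module.finrank ℝ ℂ)⁻¹| • volume := h2
  rw [h4, lintegral_smul_measure, h1, Complex.finrank_real_complex, smul_eq_mul, ← mul_assoc,
    ← ENNReal.ofReal_mul (by positivity), abs_of_pos (by positivity),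
    mul_inv_cancel₀ (by positivity), ENNReal.ofReal_one, one_mul]

theorem scale (C : ℝ≥0∞) (hC : ∀ v : ℂ, ∫⁻ x in ball (0 : ℂ) 1, ‖(x - v)⁻¹‖ₑ ≤ C) (p v : ℂ)
    {r : ℝ} (hr : 0 < r) :
    ∫⁻ x in ball p r, ‖(x - v)⁻¹‖ₑ ≤ ENNReal.ofReal r * C := by
  have hm : ∀ v : ℂ, Measurable (fun x : ℂ => ‖(x - v)⁻¹‖ₑ) := fun v => by fun_prop
  rw [← lintegral_indicator measurableSet_ball,
    lint_scale _ ((hm v).indicator measurableSet_ball) p hr]
  have h1 : ∀ u : ℂ, (ball p r).indicator (fun x => ‖(x - v)⁻¹‖ₑ) (r • u + p) =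
      ENNReal.ofReal r⁻¹ * (ball (0:ℂ) 1).indicator (fun x => ‖(x - ((v - p) / r))⁻¹‖ₑ) u := by
    intro u
    have hmem : r • u + p ∈ ball p r ↔ u ∈ ball (0:ℂ) 1 := by
      rw [mem_ball_iff_norm, mem_ball_zero_iff, add_sub_cancel_right, norm_smul, Real.norm_eq_abs,
        abs_of_pos hr]
      constructor
      · intro h
        by_contra h'
        push Not at h'
        nlinarith
      · intro h
        nlinarith
    by_cases hu : u ∈ ball (0:ℂ) 1
    · rw [indicator_of_mem (hmem.2 hu), indicator_of_mem hu]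
      have h2 : r • u + p - v = (r : ℂ) * (u - (v - p) / r) := by
        have : (r : ℂ) ≠ 0 := by exact_mod_cast hr.ne'
        rw [Complex.real_smul]
        field_simp
        ring
      rw [h2, mul_inv, enorm_mul]
      congr 1
      rw [← Complex.ofReal_inv, ← ofReal_norm, Complex.norm_real,
        Real.norm_of_nonneg (by positivity)]
    · rw [indicator_of_notMem (fun h => hu (hmem.1 h)), indicator_of_notMem hu, mul_zero]
  simp_rw [h1]
  rw [lintegral_const_mul _ ((hm _).indicator measurableSet_ball),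
    lintegral_indicator measurableSet_ball, ← mul_assoc, ← ENNReal.ofReal_mul (by positivity)]
  have h3 : r ^ 2 * r⁻¹ = r := by field_simp
  rw [h3]
  exact mul_le_mul_right (hC _) _

theorem meas_term (α v : ℕ → ℂ) (j : ℕ) : Measurable fun x : ℂ => α j / (x - v j) :=
  measurable_const.div (measurable_id.sub measurable_const)

/-- measurability of the series -/
theorem meas_ser (α v : ℕ → ℂ) : Measurable fun x : ℂ => ∑' j, α j / (x - v j) := by
  have hmeas : Measurable fun x : ℂ => ∑' j, ‖α j / (x - v j)‖ₑ :=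
    Measurable.tsum fun j => (meas_term α v j).enorm
  set S : Set ℂ := {x | ∑' j, ‖α j / (x - v j)‖ₑ < ⊤} with hS
  have hSm : MeasurableSet S := measurableSet_lt hmeas measurable_const
  have hF : ∀ n : ℕ, Measurable (S.indicator fun x => ∑ j ∈ Finset.range n, α j / (x - v j)) := by
    intro n
    exact (Finset.measurable_sum _ fun j _ => meas_term α v j).indicator hSm
  refine measurable_of_tendsto_metrizable hF ?_
  rw [tendsto_pi_nhds]
  intro x
  by_cases hx : x ∈ S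
  · simp only [indicator_of_mem hx]
    have hs : Summable fun j => α j / (x - v j) := by
      apply Summable.of_norm
      exact (summ_iff _).mp (ne_of_lt hx)
    exact hs.hasSum.tendsto_sum_nat
  · simp only [indicator_of_notMem hx]
    have hs : ¬ Summable fun j => α j / (x - v j) := by
      intro hs
      apply hx
      rw [← summable_norm_iff, ← summ_iff] at hs
      exact lt_top_iff_ne_top.mpr hs
    rw [tsum_eq_zero_of_not_summable hs]
    exact tendsto_const_nhds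

theorem ser_ball {C : ℝ≥0∞} (hC : ∀ v : ℂ, ∫⁻ x in ball (0 : ℂ) 1, ‖(x - v)⁻¹‖ₑ ≤ C)
    (α v : ℕ → ℂ) (p : ℂ) {r : ℝ} (hr : 0 < r) :
    ∫⁻ x in ball p r, ∑' j, ‖α j / (x - v j)‖ₑ ≤ ENNReal.ofReal r * (C * ∑' j, ‖α j‖ₑ) := by
  rw [lintegral_tsum fun j => (meas_term α v j).enorm.aemeasurable]
  have hle : ∑' j, ∫⁻ x in ball p r, ‖α j / (x - v j)‖ₑ ≤
      ∑' j, ‖α j‖ₑ * (ENNReal.ofReal r * C) := by
    apply ENNReal.tsum_le_tsum
    intro j
    have : ∀ x : ℂ, ‖α j / (x - v j)‖ₑ = ‖α j‖ₑ * ‖(x - v j)⁻¹‖ₑ := fun x => by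
      rw [div_eq_mul_inv, enorm_mul]
    simp only [this]
    rw [lintegral_const_mul]
    · gcongr
      exact scale C hC p (v j) hr
    · exact ((measurable_id.sub measurable_const).inv).enorm
  refine hle.trans (le_of_eq ?_)
  rw [ENNReal.tsum_mul_right]
  ring

theorem ser_ae {α : ℕ → ℂ} (v : ℕ → ℂ) (hα : Summable fun j => ‖α j‖) :
    ∀ᵐ x : ℂ, Summable fun j => ‖α j / (x - v j)‖ := by
  obtain ⟨C, hCt, hC⟩ := kernel_one
  have hmeas : Measurable fun x : ℂ => ∑' j, ‖α j / (x - v j)‖ₑ :=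
    Measurable.tsum fun j => (meas_term α v j).enorm
  have h1 : ∀ n : ℕ, ∀ᵐ x : ℂ, x ∈ ball (0 : ℂ) (n + 1) → ∑' j, ‖α j / (x - v j)‖ₑ < ⊤ := by
    intro n
    rw [← ae_restrict_iff' measurableSet_ball]
    apply ae_lt_top hmeas
    refine ne_top_of_le_ne_top ?_ (ser_ball hC α v 0 (by positivity))
    exact ENNReal.mul_ne_top ENNReal.ofReal_ne_top (ENNReal.mul_ne_top hCt ((summ_iff α).2 hα))
  have h2 := ae_all_iff.mpr h1
  filter_upwards [h2] with x hx
  rw [← summ_iff]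
  obtain ⟨n, hn⟩ := exists_nat_gt ‖x‖
  exact (hx n (mem_ball_zero_iff.mpr (by linarith))).ne

/-- the pointwise bound at infinity -/
theorem pt_bound {V X D : ℝ} (hX : 1 ≤ X) (hD : 0 < D) (hVX : V ≤ X + D) :
    V ^ 3 / (X ^ 3 * D) ≤ V ^ 2 * (16 * (((1 + X) ^ 3)⁻¹ + ((1 + D) ^ 3)⁻¹ +
      if D < 1 then D⁻¹ else 0)) := by
  have hX0 : 0 < X := by linarith
  have e1 : V ^ 3 / (X ^ 3 * D) ≤ V ^ 2 * ((X ^ 3)⁻¹ + (X ^ 2 * D)⁻¹) := by
    have : V ^ 2 * ((X ^ 3)⁻¹ + (X ^ 2 * D)⁻¹) = V ^ 2 * (X + D) / (X ^ 3 * D) := by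
      field_simp
      ring
    rw [this]
    apply div_le_div_of_nonneg_right _ (by positivity)
    calc V ^ 3 = V ^ 2 * V := by ring
      _ ≤ V ^ 2 * (X + D) := mul_le_mul_of_nonneg_left hVX (by positivity)
  have e2 : (X ^ 3)⁻¹ ≤ 8 * ((1 + X) ^ 3)⁻¹ := by
    rw [← div_eq_mul_inv, inv_eq_one_div, div_le_div_iff₀ (by positivity) (by positivity)]
    have : 1 + X ≤ 2 * X := by linarith
    calc 1 * (1 + X) ^ 3 = (1 + X) ^ 3 := one_mul _
      _ ≤ (2 * X) ^ 3 := pow_le_pow_left₀ (by positivity) this 3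
      _ = 8 * X ^ 3 := by ring
  have hpX : 0 < ((1 + X) ^ 3)⁻¹ := by positivity
  have hpD : 0 < ((1 + D) ^ 3)⁻¹ := by positivity
  have e3 : (X ^ 2 * D)⁻¹ ≤ 8 * (((1 + X) ^ 3)⁻¹ + ((1 + D) ^ 3)⁻¹) + if D < 1 then D⁻¹ else 0 := by
    by_cases hD1 : D < 1
    · rw [if_pos hD1]
      have : (X ^ 2 * D)⁻¹ ≤ D⁻¹ := by
        apply inv_anti₀ hD
        have : 1 ≤ X ^ 2 := one_le_pow₀ hX
        nlinarith
      linarith
    · rw [if_neg hD1, add_zero]
      push Not at hD1
      have e4 : (D ^ 3)⁻¹ ≤ 8 * ((1 + D) ^ 3)⁻¹ := by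
        rw [← div_eq_mul_inv, inv_eq_one_div, div_le_div_iff₀ (by positivity) (by positivity)]
        have : 1 + D ≤ 2 * D := by linarith
        calc 1 * (1 + D) ^ 3 = (1 + D) ^ 3 := one_mul _
          _ ≤ (2 * D) ^ 3 := pow_le_pow_left₀ (by positivity) this 3
          _ = 8 * D ^ 3 := by ring
      have e5 : (X ^ 2 * D)⁻¹ ≤ (X ^ 3)⁻¹ + (D ^ 3)⁻¹ := by
        rcases le_total X D with h | h
        · have : (X ^ 2 * D)⁻¹ ≤ (X ^ 3)⁻¹ := by
            apply inv_anti₀ (by positivity)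
            calc X ^ 3 = X ^ 2 * X := by ring
              _ ≤ X ^ 2 * D := mul_le_mul_of_nonneg_left h (by positivity)
          have : 0 < (D ^ 3)⁻¹ := by positivity
          linarith
        · have : (X ^ 2 * D)⁻¹ ≤ (D ^ 3)⁻¹ := by
            apply inv_anti₀ (by positivity)
            calc D ^ 3 = D ^ 2 * D := by ring
              _ ≤ X ^ 2 * D := mul_le_mul_of_nonneg_right (pow_le_pow_left₀ hD.le h 2) hD.le
          have : 0 < (X ^ 3)⁻¹ := by positivity
          linarith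
      linarith
  have hk : 0 ≤ if D < 1 then D⁻¹ else 0 := by
    split_ifs
    · positivity
    · exact le_rfl
  refine e1.trans (mul_le_mul_of_nonneg_left ?_ (by positivity))
  linarith

/-- the majorant -/
noncomputable def gg (x : ℂ) : ℝ≥0∞ := ENNReal.ofReal (((1 + ‖x‖) ^ 3)⁻¹)

theorem gg_meas : Measurable gg := by
  unfold gg
  fun_prop

theorem gg_fin : ∫⁻ x, gg x ≠ ⊤ := by
  have hint := integrable_one_add_norm (E := ℂ) (μ := volume) (r := 3)
    (by rw [Complex.finrank_real_complex]; norm_num)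
  have hfin := hint.2
  rw [hasFiniteIntegral_iff_enorm] at hfin
  refine ne_top_of_le_ne_top hfin.ne (le_of_eq ?_)
  apply lintegral_congr
  intro x
  unfold gg
  have h0 : 0 < 1 + ‖x‖ := by positivity
  rw [← ofReal_norm, Real.norm_of_nonneg (by positivity)]
  congr 1
  rw [Real.rpow_neg h0.le]
  congr 1
  have : (3 : ℝ) = ((3 : ℕ) : ℝ) := by norm_num
  rw [this, Real.rpow_natCast]

/-- the kernel near the pole -/
noncomputable def kk : ℂ → ℝ≥0∞ := (ball (0 : ℂ) 1).indicator fun x => ‖x⁻¹‖ₑ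

theorem kk_meas : Measurable kk := by
  unfold kk
  exact Measurable.indicator (by fun_prop) measurableSet_ball

theorem kk_fin : ∫⁻ x, kk x ≠ ⊤ := by
  unfold kk
  rw [lintegral_indicator measurableSet_ball]
  exact kernel_zero

theorem far : ∃ C : ℝ≥0∞, C ≠ ⊤ ∧ ∀ v : ℂ,
    ∫⁻ x in (ball (0 : ℂ) 1)ᶜ, ‖v ^ 3 / (x ^ 3 * (x - v))‖ₑ ≤ ENNReal.ofReal (‖v‖ ^ 2) * C := by
  refine ⟨ENNReal.ofReal 16 * ((∫⁻ x, gg x) + (∫⁻ x, gg x) + ∫⁻ x, kk x),
    ENNReal.mul_ne_top ENNReal.ofReal_ne_top (ENNReal.add_ne_top.2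
      ⟨ENNReal.add_ne_top.2 ⟨gg_fin, gg_fin⟩, kk_fin⟩), fun v => ?_⟩
  have hpt : ∀ x ∈ (ball (0 : ℂ) 1)ᶜ, ‖v ^ 3 / (x ^ 3 * (x - v))‖ₑ ≤
      ENNReal.ofReal (‖v‖ ^ 2) * (ENNReal.ofReal 16 * (gg x + gg (x - v) + kk (x - v))) := by
    intro x hx
    have hX : 1 ≤ ‖x‖ := by simpa using hx
    by_cases hxv : x = v
    · rw [hxv, sub_self, mul_zero, div_zero, enorm_zero]
      exact zero_le
    · have hD : 0 < ‖x - v‖ := norm_pos_iff.2 (sub_ne_zero.2 hxv)
      have hVX : ‖v‖ ≤ ‖x‖ + ‖x - v‖ := by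
        have := norm_sub_le x (x - v)
        rw [sub_sub_cancel] at this
        exact this
      have h := pt_bound hX hD hVX
      have hkk : kk (x - v) = ENNReal.ofReal (if ‖x - v‖ < 1 then ‖x - v‖⁻¹ else 0) := by
        unfold kk
        by_cases hb : ‖x - v‖ < 1
        · rw [indicator_of_mem (mem_ball_zero_iff.2 hb), if_pos hb, ← ofReal_norm, norm_inv]
        · rw [indicator_of_notMem (fun h => hb (mem_ball_zero_iff.1 h)), if_neg hb,
            ENNReal.ofReal_zero]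
      have hk : 0 ≤ if ‖x - v‖ < 1 then ‖x - v‖⁻¹ else 0 := by
        split_ifs
        · positivity
        · exact le_rfl
      rw [hkk]
      unfold gg
      rw [← ENNReal.ofReal_add (by positivity) (by positivity),
        ← ENNReal.ofReal_add (by positivity) hk, ← ENNReal.ofReal_mul (by norm_num),
        ← ENNReal.ofReal_mul (by positivity), ← ofReal_norm]
      apply ENNReal.ofReal_le_ofReal
      rw [norm_div, norm_mul, norm_pow, norm_pow]
      exact h
  calc ∫⁻ x in (ball (0 : ℂ) 1)ᶜ, ‖v ^ 3 / (x ^ 3 * (x - v))‖ₑ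
      ≤ ∫⁻ x in (ball (0 : ℂ) 1)ᶜ,
        ENNReal.ofReal (‖v‖ ^ 2) * (ENNReal.ofReal 16 * (gg x + gg (x - v) + kk (x - v))) :=
        setLIntegral_mono' measurableSet_ball.compl hpt
    _ ≤ ∫⁻ x, ENNReal.ofReal (‖v‖ ^ 2) * (ENNReal.ofReal 16 * (gg x + gg (x - v) + kk (x - v))) :=
        setLIntegral_le_lintegral _ _
    _ = _ := by
        have m1 : Measurable fun x : ℂ => gg (x - v) := gg_meas.comp (measurable_id.sub_const v)
        have m2 : Measurable fun x : ℂ => kk (x - v) := kk_meas.comp (measurable_id.sub_const v)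
        have m3 : Measurable fun x : ℂ => gg x + gg (x - v) := gg_meas.add m1
        have m4 : Measurable fun x : ℂ => gg x + gg (x - v) + kk (x - v) := m3.add m2
        rw [lintegral_const_mul _ (m4.const_mul _), lintegral_const_mul _ m4,
          lintegral_add_left m3, lintegral_add_left gg_meas,
          lintegral_sub_right_eq_self (fun x => gg x) v,
          lintegral_sub_right_eq_self (fun x => kk x) v]

theorem ser_far {α v : ℕ → ℂ} (hα : Summable fun j => ‖α j‖ * ‖v j‖ ^ 2) :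
    ∫⁻ x in (ball (0 : ℂ) 1)ᶜ, ∑' j, ‖α j * (v j ^ 3 / (x ^ 3 * (x - v j)))‖ₑ ≠ ⊤ := by
  obtain ⟨C, hCt, hC⟩ := far
  have hm : ∀ j, Measurable fun x : ℂ => ‖α j * (v j ^ 3 / (x ^ 3 * (x - v j)))‖ₑ := by
    intro j
    fun_prop
  rw [lintegral_tsum fun j => (hm j).aemeasurable]
  have hle : ∑' j, ∫⁻ x in (ball (0 : ℂ) 1)ᶜ, ‖α j * (v j ^ 3 / (x ^ 3 * (x - v j)))‖ₑ ≤
      ∑' j, ENNReal.ofReal (‖α j‖ * ‖v j‖ ^ 2) * C := by
    apply ENNReal.tsum_le_tsum
    intro j
    have : ∀ x : ℂ, ‖α j * (v j ^ 3 / (x ^ 3 * (x - v j)))‖ₑ =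
        ‖α j‖ₑ * ‖v j ^ 3 / (x ^ 3 * (x - v j))‖ₑ := fun x => enorm_mul _ _
    simp only [this]
    rw [lintegral_const_mul _ (by fun_prop), ENNReal.ofReal_mul (norm_nonneg _), ofReal_norm,
      mul_assoc]
    gcongr
    exact hC (v j)
  refine ne_top_of_le_ne_top ?_ hle
  rw [ENNReal.tsum_mul_right]
  exact ENNReal.mul_ne_top (hα.tsum_ofReal_ne_top) hCt

end L1x

open L1x

theorem t_L1 : S_L1 := by
  intro P Q d k c m v α K μ β hO hm0 hm1 hm2
  obtain ⟨C, hCt, hC⟩ := kernel_one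
  have hgeo : Summable fun j : ℕ => K * μ ^ j :=
    (summable_geometric_of_lt_one hO.μ0.le hO.μ1).mul_left K
  have hs : ∀ i, Summable fun j => ‖α i j‖ * (1 + ‖v i j‖ ^ 2) := fun i =>
    Summable.of_nonneg_of_le (fun j => by positivity) (hO.gr i) hgeo
  have hs0 : ∀ i, Summable fun j => ‖α i j‖ := fun i =>
    Summable.of_nonneg_of_le (fun j => norm_nonneg _) (fun j => by
      have h1 := norm_nonneg (α i j)
      have h2 := sq_nonneg ‖v i j‖
      nlinarith) (hs i)
  have hs2 : ∀ i, Summable fun j => ‖α i j‖ * ‖v i j‖ ^ 2 := fun i =>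
    Summable.of_nonneg_of_le (fun j => by positivity) (fun j => by
      have h1 := norm_nonneg (α i j)
      nlinarith) (hs i)
  have hs1 : ∀ i, Summable fun j => ‖α i j‖ * ‖v i j‖ := fun i =>
    Summable.of_nonneg_of_le (fun j => by positivity) (fun j => by
      have h1 := norm_nonneg (α i j)
      have h2 : ‖v i j‖ ≤ 1 + ‖v i j‖ ^ 2 := by nlinarith [sq_nonneg (‖v i j‖ - 1)]
      exact mul_le_mul_of_nonneg_left h2 h1) (hs i)
  have hptw : ∀ z, ‖HH v α β z‖ₑ ≤ ∑ i, ‖β i‖ₑ * ∑' j, ‖α i j / (z - v i j)‖ₑ := by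
    intro z
    unfold HH
    refine (enorm_sum_le _ _).trans (Finset.sum_le_sum fun i _ => ?_)
    rw [enorm_mul]
    gcongr
    exact enorm_tsum_le _
  have hmt : ∀ i, Measurable fun z : ℂ => ∑' j, ‖α i j / (z - v i j)‖ₑ := fun i =>
    Measurable.tsum fun j => (meas_term (α i) (v i) j).enorm
  -- local bound
  obtain ⟨A, hA⟩ : ∃ A : ℝ≥0∞, A = ∑ i, ‖β i‖ₑ * (C * ∑' j, ‖α i j‖ₑ) := ⟨_, rfl⟩
  have hAt : A ≠ ⊤ := by
    rw [hA]
    apply ENNReal.sum_ne_top.2
    intro i _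
    exact ENNReal.mul_ne_top enorm_ne_top (ENNReal.mul_ne_top hCt ((summ_iff _).2 (hs0 i)))
  have hloc : ∀ (y : ℂ) (ρ : ℝ), 0 < ρ →
      ∫⁻ z in ball y ρ, ‖HH v α β z‖ₑ ≤ ENNReal.ofReal ρ * A := by
    intro y ρ hρ
    calc ∫⁻ z in ball y ρ, ‖HH v α β z‖ₑ
        ≤ ∫⁻ z in ball y ρ, ∑ i, ‖β i‖ₑ * ∑' j, ‖α i j / (z - v i j)‖ₑ := lintegral_mono hptw
      _ = ∑ i, ‖β i‖ₑ * ∫⁻ z in ball y ρ, ∑' j, ‖α i j / (z - v i j)‖ₑ := by
          rw [lintegral_finsetSum _ fun i _ => (hmt i).const_mul _]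
          apply Finset.sum_congr rfl
          intro i _
          rw [lintegral_const_mul _ (hmt i)]
      _ ≤ ∑ i, ‖β i‖ₑ * (ENNReal.ofReal ρ * (C * ∑' j, ‖α i j‖ₑ)) := by
          apply Finset.sum_le_sum
          intro i _
          gcongr
          exact ser_ball hC (α i) (v i) y hρ
      _ = ENNReal.ofReal ρ * A := by
          rw [hA, Finset.mul_sum]
          apply Finset.sum_congr rfl
          intro i _
          ring
  -- summability almost everywhere
  have hae : ∀ᵐ z : ℂ, ∀ i, Summable fun j => ‖α i j / (z - v i j)‖ :=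
    ae_all_iff.2 fun i => ser_ae (v i) (hs0 i)
  have hnp : ∀ᵐ z : ℂ, ∀ i j, z ≠ v i j := by
    rw [ae_all_iff]
    intro i
    rw [ae_all_iff]
    intro j
    exact Measure.ae_ne volume (v i j)
  refine ⟨?_, ?_, ⟨A.toReal, ?_⟩, ?_⟩
  · unfold HH
    apply Finset.measurable_sum
    intro i _
    exact (meas_ser (α i) (v i)).const_mul _
  · rw [← lintegral_add_compl (fun z => ‖HH v α β z‖ₑ)
      (measurableSet_ball (x := (0 : ℂ)) (ε := 1))]
    refine ENNReal.add_ne_top.2 ⟨?_, ?_⟩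
    · exact ne_top_of_le_ne_top (ENNReal.mul_ne_top ENNReal.ofReal_ne_top hAt) (hloc 0 1 one_pos)
    · have hbd : ∀ᵐ z : ℂ ∂(volume.restrict (ball (0 : ℂ) 1)ᶜ), ‖HH v α β z‖ₑ ≤
          ∑ i, ‖β i‖ₑ * ∑' j, ‖α i j * (v i j ^ 3 / (z ^ 3 * (z - v i j)))‖ₑ := by
        rw [ae_restrict_iff' measurableSet_ball.compl]
        filter_upwards [hae, hnp] with z hz hzv hzb
        have hX : 1 ≤ ‖z‖ := by simpa using hzb
        have hz0 : z ≠ 0 := by
          rintro rfl
          rw [norm_zero] at hX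
          linarith
        have hterm : ∀ i j, α i j * (v i j ^ 3 / (z ^ 3 * (z - v i j))) =
            α i j / (z - v i j) - z⁻¹ * α i j - (z ^ 2)⁻¹ * (α i j * v i j) -
              (z ^ 3)⁻¹ * (α i j * v i j ^ 2) := by
          intro i j
          have := sub_ne_zero.2 (hzv i j)
          field_simp
          ring
        have t0 : ∀ i, Summable fun j => α i j := fun i => Summable.of_norm (hs0 i)
        have t1 : ∀ i, Summable fun j => α i j * v i j := fun i =>
          Summable.of_norm ((hs1 i).congr fun j => (norm_mul _ _).symm)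
        have t2 : ∀ i, Summable fun j => α i j * v i j ^ 2 := fun i =>
          Summable.of_norm ((hs2 i).congr fun j => by rw [norm_mul, norm_pow])
        have t3 : ∀ i, Summable fun j => α i j / (z - v i j) := fun i =>
          Summable.of_norm (hz i)
        have hsum : ∀ i, ∑' j, α i j * (v i j ^ 3 / (z ^ 3 * (z - v i j))) =
            ∑' j, α i j / (z - v i j) - z⁻¹ * ∑' j, α i j - (z ^ 2)⁻¹ * ∑' j, α i j * v i j -
              (z ^ 3)⁻¹ * ∑' j, α i j * v i j ^ 2 := by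
          intro i
          simp only [hterm]
          rw [(((t3 i).sub ((t0 i).mul_left _)).sub ((t1 i).mul_left _)).tsum_sub
            ((t2 i).mul_left _), ((t3 i).sub ((t0 i).mul_left _)).tsum_sub ((t1 i).mul_left _),
            (t3 i).tsum_sub ((t0 i).mul_left _), tsum_mul_left, tsum_mul_left, tsum_mul_left]
        have hHH : HH v α β z =
            ∑ i, β i * ∑' j, α i j * (v i j ^ 3 / (z ^ 3 * (z - v i j))) := by
          simp only [hsum]
          simp only [mul_sub, Finset.sum_sub_distrib]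
          have e0 : ∑ i, β i * (z⁻¹ * ∑' j, α i j) = 0 := by
            rw [← mul_zero z⁻¹, ← hm0, Finset.mul_sum]
            apply Finset.sum_congr rfl
            intro i _
            ring
          have e1 : ∑ i, β i * ((z ^ 2)⁻¹ * ∑' j, α i j * v i j) = 0 := by
            rw [← mul_zero (z ^ 2)⁻¹, ← hm1, Finset.mul_sum]
            apply Finset.sum_congr rfl
            intro i _
            ring
          have e2 : ∑ i, β i * ((z ^ 3)⁻¹ * ∑' j, α i j * v i j ^ 2) = 0 := by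
            rw [← mul_zero (z ^ 3)⁻¹, ← hm2, Finset.mul_sum]
            apply Finset.sum_congr rfl
            intro i _
            ring
          rw [e0, e1, e2, sub_zero, sub_zero, sub_zero]
          rfl
        rw [hHH]
        refine (enorm_sum_le _ _).trans (Finset.sum_le_sum fun i _ => ?_)
        rw [enorm_mul]
        gcongr
        exact enorm_tsum_le _
      have hmf : ∀ i, Measurable fun z : ℂ =>
          ∑' j, ‖α i j * (v i j ^ 3 / (z ^ 3 * (z - v i j)))‖ₑ := fun i =>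
        Measurable.tsum fun j => by fun_prop
      refine ne_top_of_le_ne_top ?_ (lintegral_mono_ae hbd)
      rw [lintegral_finsetSum _ fun i _ => (hmf i).const_mul _]
      apply ENNReal.sum_ne_top.2
      intro i _
      rw [lintegral_const_mul _ (hmf i)]
      exact ENNReal.mul_ne_top enorm_ne_top (ser_far (hs2 i))
  · intro y ρ hρ
    rw [mul_comm, ENNReal.ofReal_mul hρ.le, ENNReal.ofReal_toReal hAt]
    exact hloc y ρ hρ
  · rcases Nat.eq_zero_or_pos k with hk | hk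
    · subst hk
      refine ⟨fun _ => 0, fun _ => 0, by simp, ?_⟩
      apply Eventually.of_forall
      intro z
      constructor
      · simp
      · unfold HH
        simp
    · have : NeZero k := ⟨hk.ne'⟩
      have hinf : Infinite (Fin k × ℕ) := inferInstance
      obtain ⟨e⟩ : Nonempty (ℕ ≃ Fin k × ℕ) := ⟨(nonempty_denumerable (Fin k × ℕ)).some.eqv.symm⟩
      have hsp : ∀ f : Fin k × ℕ → ℂ, (∀ i, Summable fun j => ‖f (i, j)‖) →
          Summable fun x => ‖f x‖ := by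
        intro f hf
        rw [summable_prod_of_nonneg (fun _ => norm_nonneg _)]
        exact ⟨hf, (hasSum_fintype _).summable⟩
      have hsa : Summable fun x : Fin k × ℕ => ‖β x.1 * α x.1 x.2‖ :=
        hsp (fun x => β x.1 * α x.1 x.2) fun i => by
          simp only [norm_mul]
          exact (hs0 i).mul_left _
      refine ⟨fun j => β (e j).1 * α (e j).1 (e j).2, fun j => v (e j).1 (e j).2, ?_, ?_⟩
      · exact e.summable_iff.2 hsa
      · filter_upwards [hae] with z hz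
        have hsz : Summable fun x : Fin k × ℕ => ‖β x.1 * α x.1 x.2 / (z - v x.1 x.2)‖ :=
          hsp (fun x => β x.1 * α x.1 x.2 / (z - v x.1 x.2)) fun i => by
            simp only [mul_div_assoc, norm_mul]
            exact (hz i).mul_left _
        refine ⟨e.summable_iff.2 hsz, ?_⟩
        have h1 := e.tsum_eq fun x : Fin k × ℕ => β x.1 * α x.1 x.2 / (z - v x.1 x.2)
        rw [h1, (Summable.of_norm hsz).tsum_prod, tsum_fintype]
        unfold HH
        apply Finset.sum_congr rfl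
        intro i _
        rw [← tsum_mul_left]
        apply tsum_congr
        intro j
        rw [mul_div_assoc]

end Pool.Agent.H803.HY211
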